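import Mathlib

/-!
# Partial order decomposition number of tournaments: definitions
-/

set_option autoImplicit false

namespace Pool.Agent.E8helper7.Pod

/-- `A` is the arc relation of a tournament on `V`: there are no loops, and for every two distinct
vertices `u`, `v` exactly one of `A u v`, `A v u` holds. -/
def IsTournament {V : Type} (A : V → V → Prop) : Prop :=
  (∀ v, ¬ A v v) ∧ ∀ u v, u ≠ v → (A u v ↔ ¬ A v u)

/-- The arcs of `A` are the union of `m` transitive sets of arcs (which may overlap). -/
def HasPOD {V : Type} (A : V → V → Prop) (m : ℕ) : Prop :=
  ∃ P : Fin m → V → V → Prop,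
    (∀ i a b c, P i a b → P i b c → P i a c) ∧
    (∀ i u v, P i u v → A u v) ∧
    ∀ u v, A u v → ∃ i, P i u v

/-- The partial order decomposition number: the least `m` such that the arcs are a union of `m`
transitive sets of arcs. -/
noncomputable def pod {V : Type} (A : V → V → Prop) : ℕ := sInf {m | HasPOD A m}

/-- The subtournament induced on a set `X` of vertices. -/
def sub {V : Type} (A : V → V → Prop) (X : Finset V) : X → X → Prop := fun u v => A u v

/-- The pair `(k, s)` satisfies the local-to-global statement of the question: for some `N`, every
finite tournament with `pod` at least `N` has a subtournament on at most `k` vertices with `pod` at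
least `s`. -/
def LocalGlobal (k s : ℕ) : Prop :=
  ∃ N : ℕ, ∀ (V : Type) [Fintype V] (A : V → V → Prop), IsTournament A → N ≤ pod A →
    ∃ X : Finset V, X.card ≤ k ∧ s ≤ pod (sub A X)

/-- Some tournament with at most `k` vertices has `pod` at least `s`. -/
def Admissible (k s : ℕ) : Prop :=
  ∃ (V : Type) (_ : Fintype V) (A : V → V → Prop), IsTournament A ∧ Fintype.card V ≤ k ∧ s ≤ pod A

end Pool.Agent.E8helper7.Pod
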