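import Pool.Agent.E8helper7.Pod.Shift

/-!
# The shift tournaments
-/

set_option autoImplicit false

namespace Pool.Agent.E8helper7.Pod

/-! ## General facts on `pod` -/

section general

variable {V : Type} {A : V → V → Prop}

theorem hasPOD_of_fintype [Fintype V] (hA : IsTournament A) :
    HasPOD A (Fintype.card (V × V)) := by
  classical
  refine ⟨fun i u v => A u v ∧ (Fintype.equivFin (V × V)).symm i = (u, v), ?_, ?_, ?_⟩
  · rintro i a b c ⟨h1, h2⟩ ⟨h3, h4⟩
    rw [h2] at h4
    have := Prod.mk.inj h4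
    exfalso
    rw [this.1] at h1
    exact hA.1 b h1
  · rintro i u v ⟨h, _⟩
    exact h
  · intro u v h
    exact ⟨Fintype.equivFin (V × V) (u, v), h, by simp⟩

theorem pod_le {m : ℕ} (h : HasPOD A m) : pod A ≤ m := Nat.sInf_le h

theorem hasPOD_pod [Fintype V] (hA : IsTournament A) : HasPOD A (pod A) :=
  Nat.sInf_mem (s := {m | HasPOD A m}) ⟨_, hasPOD_of_fintype hA⟩

theorem le_pod [Fintype V] (hA : IsTournament A) {s : ℕ} (h : ∀ m, HasPOD A m → s ≤ m) :
    s ≤ pod A := h _ (hasPOD_pod hA)

theorem isTournament_sub (hA : IsTournament A) (X : Finset V) : IsTournament (sub A X) :=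
  ⟨fun v => hA.1 v, fun u v h => hA.2 u v fun e => h (Subtype.ext e)⟩

/-- a tournament whose vertices are split into two acyclic parts has `pod` at most `3` -/
theorem hasPOD_three {V : Type} {A : V → V → Prop} (col : V → Bool)
    (h : ∀ a b c, col a = col b → col b = col c → A a b → A b c → A a c) : HasPOD A 3 := by
  refine ⟨![fun u v => A u v ∧ col u = col v, fun u v => A u v ∧ col u = true ∧ col v = false,
    fun u v => A u v ∧ col u = false ∧ col v = true], ?_, ?_, ?_⟩
  · intro i a b c
    fin_cases i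
    · rintro ⟨h1, h2⟩ ⟨h3, h4⟩
      exact ⟨h a b c h2 h4 h1 h3, h2.trans h4⟩
    · rintro ⟨h1, h2, h3⟩ ⟨h4, h5, h6⟩
      rw [h3] at h5
      exact absurd h5 (by decide)
    · rintro ⟨h1, h2, h3⟩ ⟨h4, h5, h6⟩
      rw [h3] at h5
      exact absurd h5 (by decide)
  · intro i u v
    fin_cases i
    · exact fun h => h.1
    · exact fun h => h.1
    · exact fun h => h.1
  · intro u v huv
    cases hu : col u <;> cases hv : col v
    · exact ⟨0, huv, by rw [hu, hv]⟩
    · exact ⟨2, huv, hu, hv⟩
    · exact ⟨1, huv, hu, hv⟩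
    · exact ⟨0, huv, by rw [hu, hv]⟩

end general

/-! ## The tournaments -/

variable {r n : ℕ}

/-- `y` is a shift of `x` -/
def B (x y : Fin (r + 3) → Fin n) : Prop :=
  ∃ q : Fin (r + 4) → Fin n, StrictMono q ∧ x = Fin.init q ∧ y = Fin.tail q

theorem B.lt {x y : Fin (r + 3) → Fin n} (h : B x y) : x 0 < y 0 := by
  obtain ⟨q, hq, rfl, rfl⟩ := h
  simp only [Fin.init, Fin.tail]
  exact hq (by simp)

theorem B.step {x y : Fin (r + 3) → Fin n} (h : B x y) (i : Fin (r + 3)) (j : Fin (r + 3))
    (hij : j.val = i.val + 1) : x j = y i := by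
  obtain ⟨q, hq, rfl, rfl⟩ := h
  simp only [Fin.init, Fin.tail]
  congr 1
  ext
  simp [hij]

theorem B.mono_left {x y : Fin (r + 3) → Fin n} (h : B x y) : StrictMono x := by
  obtain ⟨q, hq, rfl, rfl⟩ := h
  intro i j hij
  exact hq (Fin.castSucc_lt_castSucc_iff.2 hij)

theorem B.mono_right {x y : Fin (r + 3) → Fin n} (h : B x y) : StrictMono y := by
  obtain ⟨q, hq, rfl, rfl⟩ := h
  intro i j hij
  exact hq (Fin.succ_lt_succ_iff.2 hij)

/-- an injective numbering of the tuples which is increasing in the first entry -/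
noncomputable def num (x : Fin (r + 3) → Fin n) : ℕ :=
  (x 0).val * (Fintype.card (Fin (r + 3) → Fin n) + 1) +
    (Fintype.equivFin (Fin (r + 3) → Fin n) x).val

theorem num_lt {x y : Fin (r + 3) → Fin n} (h : x 0 < y 0) : num x < num y := by
  unfold num
  have h1 := (Fintype.equivFin (Fin (r + 3) → Fin n) x).isLt
  have h2 : (x 0).val + 1 ≤ (y 0).val := h
  have h3 := Nat.mul_le_mul_right (Fintype.card (Fin (r + 3) → Fin n) + 1) h2
  rw [add_mul, one_mul] at h3
  omega

theorem num_inj {x y : Fin (r + 3) → Fin n} (h : num x = num y) : x = y := by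
  rcases lt_trichotomy (x 0) (y 0) with h1 | h1 | h1
  · exact absurd h (ne_of_lt (num_lt h1))
  · unfold num at h
    rw [h1] at h
    have := Nat.add_left_cancel h
    exact (Fintype.equivFin _).injective (Fin.ext this)
  · exact absurd h (ne_of_gt (num_lt h1))

/-- the arcs: the pairs `x, y` with `y` a shift of `x` are reversed -/
def T (x y : Fin (r + 3) → Fin n) : Prop :=
  (B y x) ∨ (¬ B x y ∧ ¬ B y x ∧ num x < num y)

theorem not_B_both {x y : Fin (r + 3) → Fin n} (h : B x y) : ¬ B y x := fun h' =>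
  absurd (h.lt.trans h'.lt) (lt_irrefl _)

theorem isTournament_T : IsTournament (T (r := r) (n := n)) := by
  refine ⟨fun v h => ?_, fun u v h => ⟨fun h1 h2 => ?_, fun h1 => ?_⟩⟩
  · rcases h with h | h
    · exact absurd h.lt (lt_irrefl _)
    · exact absurd h.2.2 (lt_irrefl _)
  · rcases h1 with h1 | h1 <;> rcases h2 with h2 | h2
    · exact not_B_both h1 h2
    · exact h2.1 h1
    · exact h1.1 h2
    · exact absurd (h1.2.2.trans h2.2.2) (lt_irrefl _)
  · by_cases h2 : B v u
    · exact Or.inl h2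
    · by_cases h3 : B u v
      · exact absurd (Or.inl h3) h1
      · refine Or.inr ⟨h3, h2, ?_⟩
        by_contra h4
        apply h1
        refine Or.inr ⟨h2, h3, lt_of_le_of_ne (not_lt.1 h4) fun h5 => h (num_inj h5).symm⟩

/-- `pod` is large -/
theorem lt_pod {m : ℕ} (hn : ∀ c : (Fin (r + 4) → Fin n) → Fin m, ¬ GoodCol (r + 3) n c)
    (hm : 0 < m) : m < pod (T (r := r) (n := n)) := by
  classical
  apply le_pod isTournament_T
  intro l hl
  by_contra hlm
  have hlm : l ≤ m := by omega
  obtain ⟨P, h1, h2, h3⟩ := hl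
  have h4 : ∀ q : Fin (r + 4) → Fin n, StrictMono q → ∃ i, P i (Fin.tail q) (Fin.init q) :=
    fun q hq => h3 _ _ (Or.inl ⟨q, hq, rfl, rfl⟩)
  choose f hf using h4
  apply hn fun q => if hq : StrictMono q then Fin.castLE hlm (f q hq) else ⟨0, hm⟩
  intro p hp
  have hp1 : StrictMono (Fin.init p) := fun i j hij => hp (Fin.castSucc_lt_castSucc_iff.2 hij)
  have hp2 : StrictMono (Fin.tail p) := fun i j hij => hp (Fin.succ_lt_succ_iff.2 hij)
  intro h5
  simp only [dif_pos hp1, dif_pos hp2] at h5
  have h6 : f _ hp1 = f _ hp2 := Fin.castLE_injective hlm h5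
  have h7 := hf _ hp1
  have h8 := hf _ hp2
  rw [← h6] at h8
  have h9 : Fin.tail (Fin.init p) = Fin.init (Fin.tail p) := Fin.tail_init_eq_init_tail p
  rw [h9] at h7
  have h10 := h2 _ _ _ (h1 _ _ _ _ h8 h7)
  have hx : ∀ i, (Fin.init (Fin.init p) : Fin (r + 3) → Fin n) i = p i.castSucc.castSucc :=
    fun i => rfl
  have hz : ∀ i, (Fin.tail (Fin.tail p) : Fin (r + 3) → Fin n) i = p i.succ.succ := fun i => rfl
  rcases h10 with h10 | h10
  · have := h10.step 0 1 (by simp)
    rw [hx, hz] at this
    have := hp.injective this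
    have := congrArg Fin.val this
    have e1 : ((1 : Fin (r + 3)).castSucc.castSucc).val = 1 := rfl
    have e2 : ((0 : Fin (r + 3)).succ.succ).val = 2 := rfl
    omega
  · have h11 : (Fin.init (Fin.init p) : Fin (r + 3) → Fin n) 0 <
        (Fin.tail (Fin.tail p) : Fin (r + 3) → Fin n) 0 := by
      rw [hx, hz]
      apply hp
      have e1 : ((0 : Fin (r + 3)).castSucc.castSucc).val = 0 := rfl
      have e2 : ((0 : Fin (r + 3)).succ.succ).val = 2 := rfl
      rw [Fin.lt_def]
      omega
    exact absurd (num_lt h11) (not_lt.2 h10.2.2.le)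

/-- the graph of shifts on a set `X` of tuples -/
def gr (X : Finset (Fin (r + 3) → Fin n)) : SimpleGraph X where
  Adj x y := B x.1 y.1 ∨ B y.1 x.1
  symm := ⟨fun _ _ h => h.symm⟩
  loopless := ⟨fun x h => by
    rcases h with h | h <;> exact absurd h.lt (lt_irrefl _)⟩

/-- along a walk of length `l`, the middle entry of the root stays in the tuple, at a position
which differs by at most `l` from the middle -/
theorem walk_pos {X : Finset (Fin (r + 3) → Fin n)} {x y : X} (w : (gr X).Walk x y) :
    ∀ i : Fin (r + 3), w.length ≤ i.val → i.val + w.length < r + 3 →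
      ∃ j : Fin (r + 3), y.1 j = x.1 i := by
  induction w with
  | nil => exact fun i _ _ => ⟨i, rfl⟩
  | @cons u v w h p ih =>
    intro i h1 h2
    rw [SimpleGraph.Walk.length_cons] at h1 h2
    rcases h with h | h
    · -- `v` is the shift of `u`
      have hi : i.val - 1 + 1 = i.val := by omega
      have := h.step ⟨i.val - 1, by omega⟩ i (by simp; omega)
      obtain ⟨j, hj⟩ := ih ⟨i.val - 1, by omega⟩ (by simp; omega) (by simp; omega)
      exact ⟨j, by rw [hj, this]⟩
    · have := h.step i ⟨i.val + 1, by omega⟩ (by simp)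
      obtain ⟨j, hj⟩ := ih ⟨i.val + 1, by omega⟩ (by simp; omega) (by simp; omega)
      exact ⟨j, by rw [hj, this]⟩

/-- a set of at most `k` tuples of length at least `2k+1` has a proper 2-colouring -/
theorem exists_col (X : Finset (Fin (r + 3) → Fin n)) (hX : 2 * X.card ≤ r) :
    ∃ col : X → Bool, ∀ x y : X, B x.1 y.1 → col x ≠ col y := by
  classical
  -- the middle index
  let mid : Fin (r + 3) := ⟨X.card, by omega⟩
  let root : X → X := fun x => ((gr X).connectedComponentMk x).out
  have hroot : ∀ x : X, (gr X).Reachable (root x) x := fun x =>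
    SimpleGraph.ConnectedComponent.exact (Quot.out_eq _)
  have hpos : ∀ x : X, ∃ j : Fin (r + 3), x.1 j = (root x).1 mid := by
    intro x
    obtain ⟨w, hw⟩ := (hroot x).exists_isPath
    have hl := hw.length_lt
    rw [Fintype.card_coe] at hl
    exact walk_pos w mid (by simp [mid]; omega) (by simp [mid]; omega)
  choose pos hp using hpos
  refine ⟨fun x => decide ((pos x).val % 2 = 0), fun x y h => ?_⟩
  have hr : root x = root y := by
    have : (gr X).connectedComponentMk x = (gr X).connectedComponentMk y :=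
      SimpleGraph.ConnectedComponent.sound (SimpleGraph.Adj.reachable (Or.inl h))
    simp only [root, this]
  have h1 : x.1 (pos x) = y.1 (pos y) := by rw [hp x, hp y, hr]
  have h2 : (pos x).val = (pos y).val + 1 := by
    by_cases h0 : (pos x).val = 0
    · exfalso
      have h3 : x.1 (pos x) = x.1 0 := congrArg _ (Fin.ext h0)
      have h4 : y.1 0 ≤ y.1 (pos y) := h.mono_right.monotone (Fin.zero_le _)
      rw [← h1, h3] at h4
      exact absurd h.lt (not_lt.2 h4)
    · have h3 := h.step ⟨(pos x).val - 1, by omega⟩ (pos x) (by simp; omega)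
      rw [h1] at h3
      have h4 := congrArg Fin.val (h.mono_right.injective h3)
      simp at h4
      omega
  intro h3
  have h4 : ((pos x).val % 2 = 0) ↔ ((pos y).val % 2 = 0) := by
    simpa using h3
  omega

theorem pod_sub_le (X : Finset (Fin (r + 3) → Fin n)) (hX : 2 * X.card ≤ r) :
    pod (sub (T (r := r) (n := n)) X) ≤ 3 := by
  obtain ⟨col, hcol⟩ := exists_col X hX
  apply pod_le
  apply hasPOD_three col
  have key : ∀ a b : X, col a = col b → T a.1 b.1 → num a.1 < num b.1 := by
    intro a b hab h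
    rcases h with h | h
    · exact absurd hab.symm (hcol b a h)
    · exact h.2.2
  intro a b c h1 h2 h3 h4
  have h5 := (key a b h1 h3).trans (key b c h2 h4)
  exact Or.inr ⟨fun h => hcol a c h (h1.trans h2), fun h => hcol c a h (h1.trans h2).symm, h5⟩

/-- **Main construction.** -/
theorem exists_tournament (k N : ℕ) : ∃ (V : Type) (_ : Fintype V) (A : V → V → Prop),
    IsTournament A ∧ N ≤ pod A ∧ ∀ X : Finset V, X.card ≤ k → pod (sub A X) ≤ 3 := by
  obtain ⟨n, hn⟩ := no_col (2 * k + 3) (Fin (N + 1))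
  refine ⟨Fin (2 * k + 3) → Fin n, inferInstance, T, isTournament_T, ?_, fun X hX => ?_⟩
  · have := lt_pod (r := 2 * k) hn (Nat.succ_pos _)
    omega
  · exact pod_sub_le X (by omega)

/-! ## Small values -/

theorem three_le_of_cycle {V : Type} {A : V → V → Prop} (hA : IsTournament A) {a b c : V}
    (h1 : A a b) (h2 : A b c) (h3 : A c a) {m : ℕ} (hm : HasPOD A m) : 3 ≤ m := by
  obtain ⟨P, p1, p2, p3⟩ := hm
  obtain ⟨i, hi⟩ := p3 _ _ h1
  obtain ⟨j, hj⟩ := p3 _ _ h2
  obtain ⟨l, hl⟩ := p3 _ _ h3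
  have asym : ∀ u v, A u v → ¬ A v u := by
    intro u v h
    by_cases e : u = v
    · subst e
      exact absurd h (hA.1 u)
    · exact (hA.2 u v e).1 h
  have hij : i ≠ j := by
    rintro rfl
    exact asym _ _ h3 (p2 _ _ _ (p1 _ _ _ _ hi hj))
  have hjl : j ≠ l := by
    rintro rfl
    exact asym _ _ h1 (p2 _ _ _ (p1 _ _ _ _ hj hl))
  have hil : i ≠ l := by
    rintro rfl
    exact asym _ _ h2 (p2 _ _ _ (p1 _ _ _ _ hl hi))
  have : Fintype.card (Fin 3) ≤ Fintype.card (Fin m) := by
    apply Fintype.card_le_of_injective ![i, j, l]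
    intro x y
    fin_cases x <;> fin_cases y <;> simp [hij, hjl, hil, hij.symm, hjl.symm, hil.symm]
  simpa using this

theorem exists_cycle {V : Type} {A : V → V → Prop} (hA : IsTournament A) (h : ¬ HasPOD A 1) :
    ∃ a b c : V, A a b ∧ A b c ∧ A c a := by
  by_contra hne
  push Not at hne
  apply h
  refine ⟨fun _ => A, fun _ a b c hab hbc => ?_, fun _ _ _ h => h, fun u v h => ⟨0, h⟩⟩
  by_cases e : a = c
  · subst e
    by_cases e' : a = b
    · subst e'
      exact hab
    · exact absurd hbc ((hA.2 a b e').1 hab)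
  · exact (hA.2 a c e).2 (hne a b c hab hbc)

theorem exists_arc {V : Type} {A : V → V → Prop} (h : ¬ HasPOD A 0) : ∃ a b : V, A a b := by
  by_contra hne
  push Not at hne
  exact h ⟨fun i => i.elim0, fun i => i.elim0, fun i => i.elim0,
    fun u v h => absurd h (hne u v)⟩

theorem localGlobal_of_le {k s : ℕ} (hs : s ≤ 3) (hk : Admissible k s) : LocalGlobal k s := by
  classical
  obtain ⟨V₀, _, A₀, hA₀, hc, hp⟩ := hk
  rcases Nat.lt_or_ge s 2 with h2 | h2
  · rcases Nat.lt_or_ge s 1 with h1 | h1
    · exact ⟨0, fun V _ A hA _ => ⟨∅, by simp, by omega⟩⟩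
    · -- `s = 1`
      have hs1 : s = 1 := by omega
      subst hs1
      obtain ⟨a, b, hab⟩ := exists_arc (A := A₀) fun h => by have := pod_le h; omega
      have hk2 : 2 ≤ k := by
        have hne : a ≠ b := fun e => hA₀.1 b (e ▸ hab)
        have := Finset.card_le_univ ({a, b} : Finset V₀)
        rw [Finset.card_pair hne] at this
        omega
      refine ⟨1, fun V _ A hA hV => ?_⟩
      obtain ⟨a, b, hab⟩ := exists_arc (A := A) fun h => by have := pod_le h; omega
      refine ⟨{a, b}, le_trans Finset.card_le_two hk2, ?_⟩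
      apply le_pod (isTournament_sub hA _)
      intro m hm
      obtain ⟨P, p1, p2, p3⟩ := hm
      obtain ⟨i, hi⟩ := p3 ⟨a, by simp⟩ ⟨b, by simp⟩ hab
      exact Nat.pos_of_ne_zero fun h => by subst h; exact i.elim0
  · obtain ⟨a, b, c, h1, h3, h4⟩ := exists_cycle hA₀ fun h => by have := pod_le h; omega
    have hk3 : 3 ≤ k := by
      have hab : a ≠ b := fun e => hA₀.1 b (e ▸ h1)
      have hbc : b ≠ c := fun e => hA₀.1 c (e ▸ h3)
      have hca : c ≠ a := fun e => hA₀.1 a (e ▸ h4)
      have := Finset.card_le_univ ({a, b, c} : Finset V₀)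
      rw [Finset.card_eq_three.2 ⟨a, b, c, hab, hca.symm, hbc, rfl⟩] at this
      omega
    refine ⟨2, fun V _ A hA hV => ?_⟩
    obtain ⟨a, b, c, h1, h3, h4⟩ := exists_cycle hA fun h => by have := pod_le h; omega
    refine ⟨{a, b, c}, le_trans Finset.card_le_three hk3, le_trans hs ?_⟩
    apply le_pod (isTournament_sub hA _)
    intro m hm
    exact three_le_of_cycle (isTournament_sub hA _) (a := ⟨a, by simp⟩) (b := ⟨b, by simp⟩)
      (c := ⟨c, by simp⟩) h1 h3 h4 hm

end Pool.Agent.E8helper7.Pod
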