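import Pool.Agent.E8helper7.Pod.Defs

/-!
# Shift colourings
-/

set_option autoImplicit false

namespace Pool.Agent.E8helper7.Pod

/-- `c` colours the `(r+1)`-tuples of elements of `Fin n` so that the two `(r+1)`-tuples in an
increasing `(r+2)`-tuple (initial and final) have different colours. -/
def GoodCol (r n : ℕ) {C : Type} (c : (Fin (r + 1) → Fin n) → C) : Prop :=
  ∀ p : Fin (r + 2) → Fin n, StrictMono p → c (Fin.init p) ≠ c (Fin.tail p)

theorem strictMono_cons {r n : ℕ} (a : Fin n) (q : Fin (r + 1) → Fin n) (hq : StrictMono q)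
    (h : a < q 0) : StrictMono (Fin.cons a q : Fin (r + 2) → Fin n) := by
  intro i j hij
  refine Fin.cases ?_ (fun i => ?_) i hij
  · intro hij
    refine Fin.cases ?_ (fun j => ?_) j hij
    · intro h; exact absurd h (lt_irrefl _)
    · intro _
      simp only [Fin.cons_zero, Fin.cons_succ]
      exact lt_of_lt_of_le h (hq.monotone (Fin.zero_le j))
  · intro hij
    refine Fin.cases ?_ (fun j => ?_) j hij
    · intro h; exact absurd h (Fin.not_lt_zero _)
    · intro h
      simp only [Fin.cons_succ]
      exact hq (Fin.succ_lt_succ_iff.1 h)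

theorem no_col (r : ℕ) : ∀ (C : Type) [Finite C], ∃ n : ℕ,
    ∀ c : (Fin (r + 1) → Fin n) → C, ¬ GoodCol r n c := by
  induction r with
  | zero =>
    intro C _
    have := Fintype.ofFinite C
    refine ⟨Fintype.card C + 1, fun c hc => ?_⟩
    have hinj : Function.Injective fun a : Fin (Fintype.card C + 1) => c (fun _ => a) := by
      intro a b hab
      by_contra hne
      wlog hlt : a < b generalizing a b
      · exact this hab.symm (Ne.symm hne) (lt_of_le_of_ne (not_lt.1 hlt) (Ne.symm hne))
      have hp : StrictMono (Fin.cons a (fun _ : Fin 1 => b) : Fin 2 → Fin (Fintype.card C + 1)) :=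
        strictMono_cons a _ (fun i j hij => by
          have hi : i = 0 := Subsingleton.elim (α := Fin 1) i 0
          have hj : j = 0 := Subsingleton.elim (α := Fin 1) j 0
          rw [hi, hj] at hij
          exact absurd hij (lt_irrefl _)) hlt
      apply hc _ hp
      have h1 : (Fin.init (Fin.cons a (fun _ : Fin 1 => b) : Fin 2 → Fin (Fintype.card C + 1)) :
          Fin 1 → Fin (Fintype.card C + 1)) = fun _ => a := by
        funext i
        have : i = 0 := Subsingleton.elim _ _
        subst this
        rfl
      have h2 : (Fin.tail (Fin.cons a (fun _ : Fin 1 => b) : Fin 2 → Fin (Fintype.card C + 1)) :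
          Fin 1 → Fin (Fintype.card C + 1)) = fun _ => b := by
        funext i
        rfl
      rw [h1, h2]
      exact hab
    have := Fintype.card_le_of_injective _ hinj
    simp at this
  | succ r ih =>
    intro C _
    obtain ⟨n, hn⟩ := ih (Set C)
    refine ⟨n, fun c hc => ?_⟩
    apply hn fun s => {x | ∃ q : Fin (r + 2) → Fin n, StrictMono q ∧ Fin.init q = s ∧ c q = x}
    intro p hp heq
    have h1 : c p ∈ {x | ∃ q : Fin (r + 2) → Fin n, StrictMono q ∧ Fin.init q = Fin.init p ∧
        c q = x} := ⟨p, hp, rfl, rfl⟩
    have h2 : c p ∈ {x | ∃ q : Fin (r + 2) → Fin n, StrictMono q ∧ Fin.init q = Fin.tail p ∧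
        c q = x} := by
      have h3 : {x | ∃ q : Fin (r + 2) → Fin n, StrictMono q ∧ Fin.init q = Fin.init p ∧
        c q = x} = {x | ∃ q : Fin (r + 2) → Fin n, StrictMono q ∧ Fin.init q = Fin.tail p ∧
        c q = x} := heq
      rw [← h3]
      exact h1
    obtain ⟨q, hq, hqt, hcq⟩ := h2
    have h0 : p 0 < q 0 := by
      have : q 0 = p 1 := by
        have := congrFun hqt 0
        simpa [Fin.init, Fin.tail] using this
      rw [this]
      exact hp (by simp)
    have hs := strictMono_cons (p 0) q hq h0
    apply hc _ hs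
    have e1 : (Fin.init (Fin.cons (p 0) q : Fin (r + 3) → Fin n) : Fin (r + 2) → Fin n) = p := by
      funext i
      refine Fin.cases ?_ (fun i => ?_) i
      · rfl
      · have := congrFun hqt i
        simp only [Fin.init, Fin.tail] at this ⊢
        rw [← Fin.succ_castSucc, Fin.cons_succ]
        exact this
    have e2 : (Fin.tail (Fin.cons (p 0) q : Fin (r + 3) → Fin n) : Fin (r + 2) → Fin n) = q :=
      Fin.tail_cons _ _
    rw [e1, e2]
    exact hcq.symm

end Pool.Agent.E8helper7.Pod
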